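import Mathlib
import Pool.Agent.H.MP_59b15d_al.h93e.Lk
import Pool.Agent.H.MP_59b15d_al.h95e.Fa

set_option autoImplicit false

/-!
# Subspaces fixed by all front arcs

A subspace which is fixed by the twists `A i` and by all front arcs and is stable under the half
turns of the handles is mapped to such a subspace by the exchanges, and the squares of the
exchanges fix it.
-/

namespace Pool.MP_59b15d_al.H46U

open Module Pool.MP_59b15d_al.H95E Pool.MP_59b15d_al.H93E

variable {F V Γ : Type*} [Field F] [AddCommGroup V] [Module F V] [Group Γ]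
  {ρ : Γ →* Module.End F V}

/-- The relations of the exchanges with the front arcs. -/
structure Sf (g : ℕ) (C S : ℕ → Γ) : Prop where
  /-- The exchange `S i` commutes with the front arcs which do not start or end at its handles. -/
  c1 : ∀ i l n, i + 1 < g → l + n + 1 < g → i ≠ l → i + 1 ≠ l → i ≠ l + n + 1 →
    i + 1 ≠ l + n + 1 → Commute (S i) (fa C S l n)
  /-- The exchange moves the beginning of a front arc. -/
  c3 : ∀ l n, l + n + 2 < g → S l * fa C S (l + 1) n = fa C S l (n + 1) * S l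

/-- The relations of the exchanges with the half turns. -/
structure Sq (g : ℕ) (A B C S : ℕ → Γ) : Prop where
  /-- The square of the exchange. -/
  R6 : ∀ i, i + 1 < g → S i * S i =
    (((A i * B i) ^ 3)⁻¹ * ((A (i + 1) * B (i + 1)) ^ 3)⁻¹ * C i *
      ((A (i + 1) * B (i + 1)) ^ 3 * (A i * B i) ^ 3)) *
    (((A i * B i) ^ 3)⁻¹ * C i * (A i * B i) ^ 3) *
    (((A (i + 1) * B (i + 1)) ^ 3)⁻¹ * C i * (A (i + 1) * B (i + 1)) ^ 3) * C i *
    ((A i)⁻¹ ^ 4 * (A (i + 1))⁻¹ ^ 4)
  /-- The conjugate of the arc joining the two handles. -/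
  R7 : ∀ i, i + 1 < g → (S i)⁻¹ * C i * S i =
    (A i * B i) ^ 3 * (A (i + 1) * B (i + 1)) ^ 3 * C i *
      ((A i * B i) ^ 3 * (A (i + 1) * B (i + 1)) ^ 3)⁻¹

/-- Conjugation by an element of the stabiliser. -/
theorem fx_conj {W : Submodule F V} {x y : Γ} (hx : x ∈ fx ρ W) (hy : y ∈ sb ρ W) :
    y * x * y⁻¹ ∈ fx ρ W := by
  have h1 : y * x * y⁻¹ ∈ fx ρ (mv ρ y W) := by
    rw [mem_fx_mv]
    have e : y⁻¹ * (y * x * y⁻¹) * y = x := by group
    rw [e]
    exact hx
  rwa [mem_sb.1 hy] at h1

theorem fx_conj' {W : Submodule F V} {x y : Γ} (hx : x ∈ fx ρ W) (hy : y ∈ sb ρ W) :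
    y⁻¹ * x * y ∈ fx ρ W := by
  have h1 := fx_conj hx (inv_mem hy)
  rwa [inv_inv] at h1

variable {g : ℕ} {A B C S : ℕ → Γ} {U : Submodule F V}

/-- The square of an exchange fixes `U`. -/
theorem sq_fx (Q : Sq g A B C S) (hU : Un ρ A B C S g U) {i : ℕ} (hi : i + 1 < g) :
    S i * S i ∈ fx ρ U := by
  have h1 := hU.sI i (by omega)
  have h2 := hU.sI (i + 1) hi
  have hC : C i ∈ fx ρ U := hU.fF i 0 hi
  rw [Q.R6 i hi]
  refine mul_mem (mul_mem (mul_mem (mul_mem ?_ ?_) ?_) hC)
    (mul_mem (pow_mem (inv_mem (hU.fA _)) 4) (pow_mem (inv_mem (hU.fA _)) 4))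
  · have h3 := fx_conj' hC (mul_mem h2 h1)
    rwa [mul_inv_rev] at h3
  · exact fx_conj' hC h1
  · exact fx_conj' hC h2

/-- The two translates are equal. -/
theorem mv_inv_eq (Q : Sq g A B C S) (hU : Un ρ A B C S g U) {i : ℕ} (hi : i + 1 < g) :
    mv ρ (S i)⁻¹ U = mv ρ (S i) U := by
  have h1 := mv_of_fx (g := (S i)⁻¹) (sq_fx Q hU hi)
  rwa [inv_mul_cancel_left, eq_comm] at h1

/-- The translate by an exchange is of the same kind. -/
theorem un_mv (L : Lk g A B C S) (K : Sf g C S) (Q : Sq g A B C S) (hU : Un ρ A B C S g U) {i : ℕ}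
    (hi : i + 1 < g) : Un ρ A B C S g (mv ρ (S i) U) := by
  have hsq := sq_fx Q hU hi
  refine ⟨?_, ?_, ?_⟩
  · intro j
    by_cases h1 : j = i
    · rw [h1]
      exact fx_mv_of_eq (hU.fA (i + 1)) (L.SA' i hi).symm
    · by_cases h2 : j = i + 1
      · rw [h2]
        exact fx_mv_of_eq (hU.fA i) (L.SA i hi).symm
      · exact fx_mv_of_comm (hU.fA j) (L.SAo i j h1 h2).symm
  · intro l n hn
    rcases Nat.lt_trichotomy i (l + n + 1) with h1 | h1 | h1
    · by_cases h2 : i + 1 = l + n + 1
      · -- `i + 1` is the end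
        by_cases h3 : i = l
        · -- the arc joins the two handles
          subst h3
          obtain rfl : n = 0 := by omega
          rw [mem_fx_mv, fa_zero, Q.R7 i hi]
          exact fx_conj (hU.fF i 0 hi) (mul_mem (hU.sI i (by omega)) (hU.sI (i + 1) hi))
        · obtain ⟨k, rfl⟩ : ∃ k, n = k + 1 := ⟨n - 1, by omega⟩
          obtain rfl : i = l + k + 1 := by omega
          rw [mem_fx_mv, fa_succ]
          have e : (S (l + k + 1))⁻¹ * ((S (l + k + 1))⁻¹ * fa C S l k * S (l + k + 1)) *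
              S (l + k + 1) = (S (l + k + 1) * S (l + k + 1))⁻¹ * fa C S l k *
                (S (l + k + 1) * S (l + k + 1)) := by group
          rw [e]
          exact mul_mem (mul_mem (inv_mem hsq) (hU.fF l k (by omega))) hsq
      · by_cases h3 : i = l
        · -- `i` is the beginning
          subst h3
          obtain ⟨k, rfl⟩ : ∃ k, n = k + 1 := ⟨n - 1, by omega⟩
          exact fx_mv_of_eq (hU.fF (i + 1) k (by omega)) (K.c3 i k (by omega)).symm
        · by_cases h4 : i + 1 = l
          · -- `i + 1` is the beginning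
            subst h4
            have h5 := K.c3 i n (by omega)
            rw [mem_fx_mv]
            have e : (S i)⁻¹ * fa C S (i + 1) n * S i =
                (S i * S i)⁻¹ * fa C S i (n + 1) * (S i * S i) := by
              have h6 : fa C S (i + 1) n = (S i)⁻¹ * (fa C S i (n + 1) * S i) := by
                rw [← h5]; group
              rw [h6]; group
            rw [e]
            exact mul_mem (mul_mem (inv_mem hsq) (hU.fF i (n + 1) (by omega))) hsq
          · exact fx_mv_of_comm (hU.fF l n hn)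
              (K.c1 i l n hi hn h3 h4 (by omega) h2).symm
    · -- `i` is the end
      subst h1
      rw [mem_fx_mv, ← fa_succ]
      exact hU.fF l (n + 1) (by omega)
    · exact fx_mv_of_comm (hU.fF l n hn)
        (K.c1 i l n hi hn (by omega) (by omega) (by omega) (by omega)).symm
  · intro j hj
    by_cases h1 : j = i
    · rw [h1]
      refine sb_mv_of_eq (hU.sI (i + 1) hi) ?_
      have e : SemiconjBy (S i) (A (i + 1) * B (i + 1)) (A i * B i) :=
        (show SemiconjBy (S i) (A (i + 1)) (A i) from L.SA' i hi).mul_right (L.SB' i hi)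
      exact (e.pow_right 3).eq.symm
    · by_cases h2 : j = i + 1
      · rw [h2]
        refine sb_mv_of_eq (hU.sI i (by omega)) ?_
        have e : SemiconjBy (S i) (A i * B i) (A (i + 1) * B (i + 1)) :=
          (show SemiconjBy (S i) (A i) (A (i + 1)) from L.SA i hi).mul_right (L.SB i hi)
        exact (e.pow_right 3).eq.symm
      · exact sb_mv_of_comm (hU.sI j hj)
          (((L.SAo i j h1 h2).mul_right (L.SBo i j h1 h2)).pow_right 3).symm

/-- The translate by the inverse of an exchange is of the same kind. -/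
theorem un_mv' (L : Lk g A B C S) (K : Sf g C S) (Q : Sq g A B C S) (hU : Un ρ A B C S g U) {i : ℕ}
    (hi : i + 1 < g) : Un ρ A B C S g (mv ρ (S i)⁻¹ U) := by
  rw [mv_inv_eq Q hU hi]
  exact un_mv L K Q hU hi

/-- The translate by an element of the group generated by some of the exchanges. -/
theorem un_closure (L : Lk g A B C S) (K : Sf g C S) (Q : Sq g A B C S)
    (hU : Un ρ A B C S g U) {x : Γ}
    (hx : x ∈ Subgroup.closure {y | ∃ i, i + 1 < g ∧ y = S i}) :
    Un ρ A B C S g (mv ρ x U) := by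
  induction hx using Subgroup.closure_induction_left with
  | one => rwa [mv_one]
  | mul_left x hx y hy ih =>
    obtain ⟨i, hi, rfl⟩ := hx
    rw [mv_mul]
    exact un_mv L K Q ih hi
  | inv_mul_cancel x hx y hy ih =>
    obtain ⟨i, hi, rfl⟩ := hx
    rw [mv_mul]
    exact un_mv' L K Q ih hi

/-- The sum of two such subspaces. -/
theorem un_sup {U U' : Submodule F V} (h : Un ρ A B C S g U) (h' : Un ρ A B C S g U') :
    Un ρ A B C S g (U ⊔ U') := by
  have hf : ∀ {x : Γ}, x ∈ fx ρ U → x ∈ fx ρ U' → x ∈ fx ρ (U ⊔ U') := by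
    intro x h1 h2 w hw
    obtain ⟨u, hu, u', hu', rfl⟩ := Submodule.mem_sup.1 hw
    rw [map_add, h1 u hu, h2 u' hu']
  refine ⟨fun i => hf (h.fA i) (h'.fA i), fun l n hn => hf (h.fF l n hn) (h'.fF l n hn), ?_⟩
  intro i hi
  have h1 := mem_sb.1 (h.sI i hi)
  have h2 := mem_sb.1 (h'.sI i hi)
  rw [mem_sb, mv, Submodule.map_sup]
  rw [mv] at h1 h2
  rw [h1, h2]

/-- The sum of a family of such subspaces. -/
theorem un_iSup {ι : Sort*} {U : ι → Submodule F V} (h : ∀ k, Un ρ A B C S g (U k)) :
    Un ρ A B C S g (⨆ k, U k) := by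
  have hf : ∀ {x : Γ}, (∀ k, x ∈ fx ρ (U k)) → x ∈ fx ρ (⨆ k, U k) := by
    intro x h1 w hw
    have h2 : (⨆ k, U k) ≤ LinearMap.eqLocus (ρ x) LinearMap.id := by
      refine iSup_le fun k v hv => ?_
      rw [LinearMap.mem_eqLocus, LinearMap.id_apply]
      exact h1 k v hv
    exact h2 hw
  refine ⟨fun i => hf fun k => (h k).fA i, fun l n hn => hf fun k => (h k).fF l n hn, ?_⟩
  intro i hi
  rw [mem_sb, mv, Submodule.map_iSup]
  exact iSup_congr fun k => mem_sb.1 ((h k).sI i hi)

end Pool.MP_59b15d_al.H46U
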