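import Mathlib
import Pool.Agent.H.MP_59b15d_al.h46u.LemU
import Pool.Agent.H.MP_59b15d_al.h47e.Fb
import Pool.Agent.H.MP_59b15d_al.h60e.Hb
import Pool.Agent.H.MP_59b15d_al.h95e.St1

set_option autoImplicit false

/-!
# Subspaces fixed by all front arcs: the final form
-/

namespace Pool.MP_59b15d_al.H46U

open Module Pool.MP_59b15d_al.H95E Pool.MP_59b15d_al.H93E Pool.MP_59b15d_al.H60E

variable {F V Γ : Type*} [Field F] [AddCommGroup V] [Module F V] [Group Γ]
  {ρ : Γ →* Module.End F V} {g : ℕ} {A B C S : ℕ → Γ}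

/-- The relations of the exchanges with the front arcs follow from the relations of the
generators. -/
theorem sf (L : Lk g A B C S) : Sf g C S where
  c1 := fun _ _ n hi hn h1 h2 h3 h4 => Pool.MP_59b15d_al.H47E.fa_S L n hi hn h1 h2 h3 h4
  c3 := fun _ n hn => (Pool.MP_59b15d_al.H47E.fa_left L n hn).eq

/-- The half turns of two handles commute. -/
theorem io_io (L : Lk g A B C S) (i j : ℕ) :
    Commute ((A i * B i) ^ 3) ((A j * B j) ^ 3) :=
  ((Pool.MP_59b15d_al.H47E.io_A L i j).mul_right (Pool.MP_59b15d_al.H47E.io_B L i j)).pow_right 3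

theorem sq (L : Lk g A B C S) (H : Hb g A B C S) : Sq g A B C S where
  R6 := by
    intro i hi
    rw [H.R6 i hi]
    simp only [io]
    group
  R7 := by
    intro i hi
    have h1 := H.R7 i hi
    simp only [io] at h1
    -- conjugate by the exchange, which exchanges the two half turns
    have c := io_io L i (i + 1)
    have s1 : SemiconjBy (S i) ((A i * B i) ^ 3) ((A (i + 1) * B (i + 1)) ^ 3) := by
      have h2 := Pool.MP_59b15d_al.H47E.S_io L hi i
      rwa [Equiv.swap_apply_left] at h2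
    have s2 : SemiconjBy (S i) ((A (i + 1) * B (i + 1)) ^ 3) ((A i * B i) ^ 3) := by
      have h2 := Pool.MP_59b15d_al.H47E.S_io L hi (i + 1)
      rwa [Equiv.swap_apply_right] at h2
    obtain ⟨x, hx⟩ : ∃ x, x = (A i * B i) ^ 3 * (A (i + 1) * B (i + 1)) ^ 3 := ⟨_, rfl⟩
    have s3 : SemiconjBy (S i) x x := by
      rw [hx]
      have h2 := s1.mul_right s2
      rwa [← c.eq] at h2
    rw [← hx] at h1 ⊢
    have h3 : S i * (x * C i * x⁻¹) * (S i)⁻¹ = C i := by
      have e : S i * x = x * S i := s3.eq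
      calc S i * (x * C i * x⁻¹) * (S i)⁻¹ = (S i * x) * C i * (S i * x)⁻¹ := by group
        _ = x * (S i * C i * (S i)⁻¹) * x⁻¹ := by rw [e]; group
        _ = C i := by rw [h1]; group
    calc (S i)⁻¹ * C i * S i = (S i)⁻¹ * (S i * (x * C i * x⁻¹) * (S i)⁻¹) * S i := by rw [h3]
      _ = _ := by group

/-- **LemU.** -/
theorem lemU (L : Lk g A B C S) (H : Hb g A B C S) : LemU ρ A B C S g :=
  fun _ hU _ hi => ⟨un_mv L (sf L) (sq L H) hU hi, un_mv' L (sf L) (sq L H) hU hi⟩

/-- The squares of the exchanges fix such subspaces. -/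
theorem S_sq_fx (L : Lk g A B C S) (H : Hb g A B C S) {U : Submodule F V}
    (hU : Un ρ A B C S g U) {i : ℕ} (hi : i + 1 < g) : S i * S i ∈ fx ρ U :=
  sq_fx (sq L H) hU hi

end Pool.MP_59b15d_al.H46U
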