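import Mathlib
import Pool.Agent.H.MP_59b15d_al.deg.Lan
import Pool.Agent.H.MP_59b15d_al.deg.Tp
import Pool.Agent.H.MP_59b15d_al.h47e.Lan
import Pool.Agent.H.MP_59b15d_al.h60e.Hb
import Pool.Agent.H.MP_59b15d_al.lin.Lan2

set_option autoImplicit false

/-!
# The instances of the lantern relation and of the bounding pairs
-/

namespace Pool.MP_59b15d_al.H46U

open Pool.MP_59b15d_al.H95E Pool.MP_59b15d_al.H93E Pool.MP_59b15d_al.H60E
open Pool.MP_59b15d_al.H24T Pool.MP_59b15d_al.H76R Pool.MP_59b15d_al.H73E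
open Pool.MP_59b15d_al.H60G Pool.MP_59b15d_al.H40L
open Pool.MP_59b15d_al.H47E (Bp Lt Ln)
open Pool.Agent.H.MP_59b15d_al.Deg

section

variable {m : ℕ} {G : Type*} [Group G] {a b : Fin m → G} (h : IsSurf a b)

theorem comm_TrA {f : MulAut G} (hf : ∀ l, Commute f (TA h l)) (i : ℕ) : Commute f (TrA h i) := by
  by_cases hi : i < m
  · rw [TrA_lt h hi]
    exact (hf _).inv_right
  · rw [TrA, dif_neg hi]
    exact Commute.one_right _

theorem comm_TrB {f : MulAut G} {i : ℕ} (hf : ∀ l : Fin m, (l : ℕ) = i → Commute f (TB h l)) :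
    Commute f (TrB h i) := by
  by_cases hi : i < m
  · rw [TrB_lt h hi]
    exact hf _ rfl
  · rw [TrB, dif_neg hi]
    exact Commute.one_right _

theorem comm_TrC {f : MulAut G}
    (hf : ∀ (i j : Fin m) (hij : (j : ℕ) = i + 1), Commute f (CC h i j hij)) (i : ℕ) :
    Commute f (TrC h i) := by
  by_cases hi : i + 1 < m
  · rw [TrC_lt h hi]
    exact hf _ _ _
  · rw [TrC, dif_neg hi]
    exact Commute.one_right _

/-- The bounding pair of the handle `q`. -/
theorem bp_of {S : ℕ → MulAut G} (q : Fin m) :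
    Bp m (TrA h) (TrB h) (TrC h) S q (Tp h q) where
  TA := comm_TrA h (Tp_TA h)
  TB := by
    intro i hi
    refine comm_TrB h fun l hl => Tp_TB h (l := l) ?_
    rintro rfl
    exact hi hl.symm
  TC := comm_TrC h fun i j hij => Tp_CC h hij
  brT := by
    rw [TrB_lt h q.2]
    exact Tp_TB_braid h

/-- The lantern relation of three consecutive handles. -/
theorem ln_of {S : ℕ → MulAut G}
    (hS : ∀ k (hk : k + 1 < m), S k = SW h ⟨k, by omega⟩ ⟨k + 1, hk⟩ rfl) :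
    Ln m (TrA h) (TrB h) (TrC h) S where
  lan := by
    intro i hi
    obtain ⟨x, hx⟩ : ∃ x : Fin m, (x : ℕ) = i := ⟨⟨i, by omega⟩, rfl⟩
    refine ⟨CE h ⟨i, by omega⟩ ⟨i + 1, by omega⟩ ⟨i + 2, hi⟩ rfl rfl, ?_, ?_, ?_, ?_⟩
    · have e1 : fa (TrC h) S i 0 = CC h ⟨i, by omega⟩ ⟨i + 1, by omega⟩ rfl := by
        rw [fa_zero, TrC_lt h (by omega : i + 1 < m)]
      have e2 : fa (TrC h) S (i + 0 + 1) 0 = CC h ⟨i + 1, by omega⟩ ⟨i + 2, hi⟩ rfl := by
        rw [fa_zero]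
        exact TrC_lt h (by omega : i + 0 + 1 + 1 < m)
      have e3 : fa (TrC h) S i (0 + 0 + 1) =
          (SW h ⟨i + 1, by omega⟩ ⟨i + 2, hi⟩ rfl)⁻¹ * CC h ⟨i, by omega⟩ ⟨i + 1, by omega⟩ rfl *
            SW h ⟨i + 1, by omega⟩ ⟨i + 2, hi⟩ rfl := by
        have e4 : fa (TrC h) S i (0 + 0 + 1) =
          (S (i + 1))⁻¹ * fa (TrC h) S i 0 * S (i + 1) := rfl
        rw [e4, e1, hS (i + 1) (by omega)]
      have e5 : (TrA h (i + 0 + 1) * TrB h (i + 0 + 1)) ^ 3 = IO h ⟨i + 1, by omega⟩ := by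
        rw [IO_eq, TrA_lt h (by omega : i + 0 + 1 < m), TrB_lt h (by omega : i + 0 + 1 < m)]
      rw [e1, e2, e3, e5, LAN, TrA_lt h (by omega : i < m),
        TrA_lt h (by omega : i + 0 + 1 < m), TrA_lt h (by omega : i + 0 + 0 + 2 < m)]
    · rw [TrB_lt h (by omega : i < m)]
      exact CE_TBi h rfl rfl
    · rw [TrB_lt h (by omega : i + 0 + 1 < m)]
      exact CE_TBj h rfl rfl
    · rw [TrB_lt h (by omega : i + 0 + 0 + 2 < m)]
      exact CE_TBk h rfl rfl

end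

end Pool.MP_59b15d_al.H46U
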