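import Mathlib
import Pool.Agent.H.MP_59b15d_al.deg.Sw
import Pool.Agent.H.MP_59b15d_al.h47e.Fb
import Pool.Agent.H.MP_59b15d_al.h60e.Hb

set_option autoImplicit false

/-!
# The instance of the further relations
-/

namespace Pool.MP_59b15d_al.H46U

open Pool.MP_59b15d_al.H95E Pool.MP_59b15d_al.H93E Pool.MP_59b15d_al.H60E
open Pool.MP_59b15d_al.H24T Pool.MP_59b15d_al.H76R Pool.MP_59b15d_al.H73E
open Pool.MP_59b15d_al.H60G Pool.MP_59b15d_al.H40L
open Pool.Agent.H.MP_59b15d_al.Deg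

section

variable {m : ℕ} {G : Type*} [Group G] {a b : Fin m → G} (h : IsSurf a b)

theorem io_IO {k : ℕ} (hk : k < m) : io (TrA h) (TrB h) k = IO h ⟨k, hk⟩ := by
  rw [io, TrA_lt h hk, TrB_lt h hk, IO_eq]

/-- The further relations, for the exchanges `S`. -/
theorem hb_of {S : ℕ → MulAut G} (L : Lk m (TrA h) (TrB h) (TrC h) S)
    (hS : ∀ k (hk : k + 1 < m), S k = SW h ⟨k, by omega⟩ ⟨k + 1, hk⟩ rfl)
    (hS' : ∀ k, m ≤ k + 1 → S k = 1) : Hb m (TrA h) (TrB h) (TrC h) S where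
  SS := by
    intro i j hij
    by_cases hj : j + 1 < m
    · exact Pool.MP_59b15d_al.H47E.SS L (by omega) hj (Or.inl hij)
    · rw [hS' j (by omega)]
      exact Commute.one_right _
  br := fun i hi => Pool.MP_59b15d_al.H47E.SSS L hi
  R7 := by
    intro i hi
    rw [io_IO h (by omega : i < m), io_IO h hi, hS i hi, TrC_lt h hi]
    exact R7' h rfl
  R6 := by
    intro i hi
    rw [io_IO h (by omega : i < m), io_IO h hi, hS i hi, TrC_lt h hi, TrA_lt h (by omega : i < m),
      TrA_lt h hi, inv_inv, inv_inv, R6 h rfl, PP]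
    group

end

end Pool.MP_59b15d_al.H46U
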