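import Mathlib
import Pool.Agent.H.MP_59b15d_al.h47e.Fb
import Pool.Agent.H.MP_59b15d_al.h60e.Hb

set_option autoImplicit false

/-!
# Transfer of the relations along injective homomorphisms
-/

namespace Pool.MP_59b15d_al.H46U

open Pool.MP_59b15d_al.H95E Pool.MP_59b15d_al.H93E Pool.MP_59b15d_al.H60E
open Pool.MP_59b15d_al.H47E (Bp)

variable {Γ Γ' : Type*} [Group Γ] [Group Γ'] {g : ℕ} {A B C S : ℕ → Γ'}

theorem comm_lift {f : Γ' →* Γ} (hf : Function.Injective f) {x y : Γ'}
    (h : Commute (f x) (f y)) : Commute x y := by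
  apply hf
  rw [map_mul, map_mul]
  exact h

/-- The relations of the generators. -/
theorem lk_lift {f : Γ' →* Γ} (hf : Function.Injective f)
    (L : Lk g (fun k => f (A k)) (fun k => f (B k)) (fun k => f (C k)) (fun k => f (S k))) :
    Lk g A B C S where
  AA := fun i j => comm_lift hf (L.AA i j)
  AC := fun i j => comm_lift hf (L.AC i j)
  CC := fun i j => comm_lift hf (L.CC i j)
  AB := fun i j h => comm_lift hf (L.AB i j h)
  BB := fun i j => comm_lift hf (L.BB i j)
  BC := fun i j h h' => comm_lift hf (L.BC i j h h')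
  brA := fun i => hf (by simpa using L.brA i)
  brC := fun i hi => hf (by simpa using L.brC i hi)
  brC' := fun i hi => hf (by simpa using L.brC' i hi)
  SA := fun i hi => hf (by simpa using L.SA i hi)
  SA' := fun i hi => hf (by simpa using L.SA' i hi)
  SB := fun i hi => hf (by simpa using L.SB i hi)
  SB' := fun i hi => hf (by simpa using L.SB' i hi)
  SAo := fun i j h h' => comm_lift hf (L.SAo i j h h')
  SBo := fun i j h h' => comm_lift hf (L.SBo i j h h')
  SCo := fun i j h h' h'' => comm_lift hf (L.SCo i j h h' h'')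
  SSC := fun i hi => hf (by simpa using L.SSC i hi)
  SSC' := fun i hi => hf (by simpa using L.SSC' i hi)
  gar := fun i hi => hf (by simpa using L.gar i hi)
  Cout := fun i hi => hf (by rw [map_one]; exact L.Cout i hi)

theorem map_io {f : Γ' →* Γ} (i : ℕ) :
    f (io A B i) = io (fun k => f (A k)) (fun k => f (B k)) i := by
  simp only [io, map_pow, map_mul]

/-- The further relations. -/
theorem hb_lift {f : Γ' →* Γ} (hf : Function.Injective f)
    (H : Hb g (fun k => f (A k)) (fun k => f (B k)) (fun k => f (C k)) (fun k => f (S k))) :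
    Hb g A B C S where
  SS := fun i j h => comm_lift hf (H.SS i j h)
  br := fun i hi => hf (by simpa using H.br i hi)
  R7 := fun i hi => hf (by
    have h1 := H.R7 i hi
    simp only [map_mul, map_inv, map_io]
    exact h1)
  R6 := fun i hi => hf (by
    have h1 := H.R6 i hi
    simp only [map_mul, map_inv, map_pow, map_io]
    exact h1)

/-- The relations of a bounding pair. -/
theorem bp_lift {f : Γ' →* Γ} (hf : Function.Injective f) {q : ℕ} {T : Γ'}
    (P : Bp g (fun k => f (A k)) (fun k => f (B k)) (fun k => f (C k)) (fun k => f (S k)) q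
      (f T)) : Bp g A B C S q T where
  TA := fun i => comm_lift hf (P.TA i)
  TB := fun i hi => comm_lift hf (P.TB i hi)
  TC := fun i => comm_lift hf (P.TC i)
  brT := hf (by simpa using P.brT)

theorem map_fa {f : Γ' →* Γ} (l n : ℕ) :
    f (fa C S l n) = fa (fun k => f (C k)) (fun k => f (S k)) l n := by
  induction n with
  | zero => rfl
  | succ n ih => rw [fa_succ, fa_succ, map_mul, map_mul, map_inv, ih]

end Pool.MP_59b15d_al.H46U
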