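import Mathlib
import Pool.Agent.H.MP_59b15d_al.h46u.BpInst
import Pool.Agent.H.MP_59b15d_al.h46u.HbInst
import Pool.Agent.H.MP_59b15d_al.h46u.Lift
import Pool.Agent.H.MP_59b15d_al.lin.Fin

set_option autoImplicit false

/-!
# The instances for the mapping class group as a group
-/

namespace Pool.MP_59b15d_al.H46U

universe w

open Pool.MP_59b15d_al.H95E Pool.MP_59b15d_al.H93E Pool.MP_59b15d_al.H60E
open Pool.MP_59b15d_al.H24T Pool.MP_59b15d_al.H76R Pool.MP_59b15d_al.H73E
open Pool.MP_59b15d_al.H60G Pool.MP_59b15d_al.H40L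
open Pool.MP_59b15d_al.H47E (Bp Lt Ln)
open Pool.Agent.H.MP_59b15d_al.Deg
open Pool.Agent.H.MP_59b15d_al.Lin (uA uB uC MR_le_MCG)

section lift

variable {Γ Γ' : Type*} [Group Γ] [Group Γ'] {g : ℕ} {A B C S : ℕ → Γ'}

/-- The lantern relation. -/
theorem lt_lift {f : Γ' →* Γ} (hf : Function.Injective f) {l m n : ℕ}
    (H : Lt (fun k => f (A k)) (fun k => f (B k)) (fun k => f (C k)) (fun k => f (S k)) l m n) :
    Lt A B C S l m n := by
  obtain ⟨E, h0, h1, h2, h3⟩ := H
  obtain ⟨E', hE'⟩ : ∃ E', E' = (A l * A (l + m + 1) * A (l + m + n + 2))⁻¹ *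
      (fa C S l m * ((A (l + m + 1) * B (l + m + 1)) ^ 3 * fa C S (l + m + 1) n *
      ((A (l + m + 1) * B (l + m + 1)) ^ 3)⁻¹) * fa C S l (m + n + 1)) := ⟨_, rfl⟩
  have hfE : f E' = E := by
    rw [hE']
    simp only [map_mul, map_inv, map_pow, map_fa]
    rw [h0]
    group
  subst hfE
  refine ⟨E', ?_, hf (by simpa using h1), hf (by simpa using h2), hf (by simpa using h3)⟩
  rw [hE']
  group

theorem ln_lift {f : Γ' →* Γ} (hf : Function.Injective f)
    (R : Ln g (fun k => f (A k)) (fun k => f (B k)) (fun k => f (C k)) (fun k => f (S k))) :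
    Ln g A B C S where
  lan := fun i hi => lt_lift hf (R.lan i hi)

end lift

section

variable {m : ℕ} {G : Type w} [Group G] {a b : Fin m → G} (h : IsSurf a b)

/-- The exchange of the handles `k` and `k + 1`. -/
noncomputable def TrS (k : ℕ) : MulAut G :=
  if hk : k + 1 < m then SW h ⟨k, by omega⟩ ⟨k + 1, hk⟩ rfl else 1

theorem TrS_lt {k : ℕ} (hk : k + 1 < m) :
    TrS h k = SW h ⟨k, by omega⟩ ⟨k + 1, hk⟩ rfl := dif_pos hk

theorem TrS_ge {k : ℕ} (hk : m ≤ k + 1) : TrS h k = 1 := dif_neg (by omega)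

theorem TrS_mem (k : ℕ) : TrS h k ∈ MCG a b := by
  by_cases hk : k + 1 < m
  · rw [TrS_lt h hk]
    exact MR_le_MCG h _ _ (SW_mem h rfl)
  · rw [TrS_ge h (by omega)]
    exact one_mem _

/-- The exchanges, as elements of the mapping class group. -/
noncomputable def uS (k : ℕ) : MCG a b := ⟨TrS h k, TrS_mem h k⟩

/-- The second curve of the bounding pair, as an element of the mapping class group. -/
noncomputable def uT (q : Fin m) : MCG a b := ⟨Tp h q, MR_le_MCG h _ _ (Tp_mem h q)⟩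

theorem inj : Function.Injective (MCG a b).subtype := Subtype.val_injective

theorem uhb (L : Lk m (TrA h) (TrB h) (TrC h) (TrS h)) : Hb m (uA h) (uB h) (uC h) (uS h) :=
  hb_lift (f := (MCG a b).subtype) inj
    (hb_of h L (fun _ hk => TrS_lt h hk) (fun _ hk => TrS_ge h hk))

theorem ulk (L : Lk m (TrA h) (TrB h) (TrC h) (TrS h)) : Lk m (uA h) (uB h) (uC h) (uS h) :=
  lk_lift (f := (MCG a b).subtype) inj L

theorem uln : Ln m (uA h) (uB h) (uC h) (uS h) :=
  ln_lift (f := (MCG a b).subtype) inj (ln_of h fun _ hk => TrS_lt h hk)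

theorem ubp (q : Fin m) : Bp m (uA h) (uB h) (uC h) (uS h) q (uT h q) :=
  bp_lift (f := (MCG a b).subtype) inj (bp_of h q)

theorem uA_out {i : ℕ} (hi : m ≤ i) : uA h i = 1 :=
  Subtype.ext (dif_neg (by omega) : TrA h i = 1)

end

end Pool.MP_59b15d_al.H46U
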