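import Mathlib

set_option autoImplicit false

/-!
# Common eigenvectors of commuting endomorphisms
-/

namespace Pool.MP_59b15d_al.H46U

open Module

variable {F V : Type*} [Field F] [AddCommGroup V] [Module F V] [FiniteDimensional F V]

/-- A property of an endomorphism on a subspace: if every nonzero stable subspace contains a nonzero
vector killed by `f i - c` for some `c` in a set of allowed scalars, then there is a common one. -/
theorem common_of {ι : Type*} (f : ι → End F V) (hc : ∀ i j, Commute (f i) (f j))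
    (P : F → Prop)
    (hP : ∀ i, ∀ W : Submodule F V, W ≠ ⊥ → (∀ w ∈ W, f i w ∈ W) →
      ∃ c, P c ∧ ∃ w ∈ W, w ≠ 0 ∧ f i w = c • w) :
    ∀ (n : ℕ) (W : Submodule F V), finrank F W ≤ n → W ≠ ⊥ → (∀ i, ∀ w ∈ W, f i w ∈ W) →
      ∃ w ∈ W, w ≠ 0 ∧ ∀ i, ∃ c, P c ∧ f i w = c • w := by
  intro n
  induction n with
  | zero =>
    intro W h0 hW _
    exact absurd (Submodule.finrank_eq_zero.1 (Nat.le_zero.1 h0)) hW
  | succ n ih =>
    intro W hn hW hs
    by_cases h1 : ∀ i, ∃ c, P c ∧ ∀ w ∈ W, f i w = c • w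
    · obtain ⟨w, hw, hw0⟩ := Submodule.exists_mem_ne_zero_of_ne_bot hW
      refine ⟨w, hw, hw0, fun i => ?_⟩
      obtain ⟨c, h2, h3⟩ := h1 i
      exact ⟨c, h2, h3 w hw⟩
    · push Not at h1
      obtain ⟨i, hi⟩ := h1
      obtain ⟨c, hPc, w0, hw0, hw00, hfw0⟩ := hP i W hW (hs i)
      obtain ⟨w1, hw1, hfw1⟩ := hi c hPc
      let W' : Submodule F V := W ⊓ LinearMap.ker (f i - algebraMap F (End F V) c)
      have hmem : ∀ w, w ∈ W' ↔ w ∈ W ∧ f i w = c • w := by
        intro w
        rw [Submodule.mem_inf, LinearMap.mem_ker, LinearMap.sub_apply, sub_eq_zero]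
        rfl
      have hlt : W' < W := by
        refine lt_of_le_of_ne inf_le_left fun he => hfw1 ?_
        rw [← he] at hw1
        exact ((hmem w1).1 hw1).2
      have hfr : finrank F W' ≤ n := by
        have := Submodule.finrank_lt_finrank_of_lt hlt
        omega
      have hW' : W' ≠ ⊥ := by
        intro he
        have h2 : w0 ∈ W' := (hmem w0).2 ⟨hw0, hfw0⟩
        rw [he, Submodule.mem_bot] at h2
        exact hw00 h2
      obtain ⟨w, hw, hw0', h3⟩ := ih W' hfr hW' (by
        intro j w hw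
        rw [hmem] at hw ⊢
        refine ⟨hs j w hw.1, ?_⟩
        have h4 : f i (f j w) = f j (f i w) := by
          have h5 := congrArg (fun φ : End F V => φ w) (hc i j).eq
          simpa using h5
        rw [h4, hw.2, map_smul])
      exact ⟨w, ((hmem w).1 hw).1, hw0', h3⟩

/-- Over an algebraically closed field commuting endomorphisms have a common eigenvector in every
nonzero stable subspace. -/
theorem common_eigen [IsAlgClosed F] {ι : Type*} (f : ι → End F V)
    (hc : ∀ i j, Commute (f i) (f j)) {W : Submodule F V} (hW : W ≠ ⊥)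
    (hs : ∀ i, ∀ w ∈ W, f i w ∈ W) : ∃ w ∈ W, w ≠ 0 ∧ ∀ i, ∃ c : F, f i w = c • w := by
  obtain ⟨w, h1, h2, h3⟩ := common_of f hc (fun _ => True) (by
    intro i W hW hsW
    have : Nontrivial W := Submodule.nontrivial_iff_ne_bot.2 hW
    obtain ⟨c, hcc⟩ := Module.End.exists_eigenvalue ((f i).restrict hsW)
    obtain ⟨w, hw⟩ := hcc.exists_hasEigenvector
    refine ⟨c, trivial, w, w.2, ?_, ?_⟩
    · intro h0
      exact hw.2 (Subtype.ext h0)
    · have := congrArg Subtype.val hw.apply_eq_smul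
      exact this) _ W le_rfl hW hs
  exact ⟨w, h1, h2, fun i => by obtain ⟨c, _, hc'⟩ := h3 i; exact ⟨c, hc'⟩⟩

/-- Commuting nilpotent endomorphisms have a common vector in the kernels. -/
theorem common_ker {ι : Type*} (f : ι → End F V) (hc : ∀ i j, Commute (f i) (f j))
    (hn : ∀ i, IsNilpotent (f i)) {W : Submodule F V} (hW : W ≠ ⊥)
    (hs : ∀ i, ∀ w ∈ W, f i w ∈ W) : ∃ w ∈ W, w ≠ 0 ∧ ∀ i, f i w = 0 := by
  obtain ⟨w, h1, h2, h3⟩ := common_of f hc (fun c => c = 0) (by
    intro i W hW hsW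
    obtain ⟨N, hN⟩ := hn i
    obtain ⟨w, hw, hw0⟩ := Submodule.exists_mem_ne_zero_of_ne_bot hW
    refine ⟨0, rfl, ?_⟩
    have hex : ∃ n, (f i ^ n) w = 0 := ⟨N, by rw [hN]; rfl⟩
    classical
    have h4 := Nat.find_spec hex
    have h5 : Nat.find hex ≠ 0 := by
      intro h0
      rw [h0, pow_zero] at h4
      exact hw0 h4
    obtain ⟨k, hk⟩ := Nat.exists_eq_succ_of_ne_zero h5
    have hst : ∀ n, (f i ^ n) w ∈ W := by
      intro n
      induction n with
      | zero => exact hw
      | succ n ih => rw [pow_succ']; exact hsW _ ih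
    refine ⟨(f i ^ k) w, hst k, fun h0 => Nat.find_min hex (m := k) (by omega) h0, ?_⟩
    rw [hk, pow_succ'] at h4
    rw [zero_smul]
    exact h4) _ W le_rfl hW hs
  refine ⟨w, h1, h2, fun i => ?_⟩
  obtain ⟨c, h4, h5⟩ := h3 i
  rw [h5, h4, zero_smul]

/-- If `n` is not nilpotent, there is a nonzero subspace, stable under everything that commutes with
`n`, on which `n` is injective. -/
theorem exists_stable_inj {n : End F V} (hn : ¬ IsNilpotent n) : ∃ W : Submodule F V, W ≠ ⊥ ∧
    (∀ φ : End F V, Commute φ n → ∀ w ∈ W, φ w ∈ W) ∧ ∀ w ∈ W, n w = 0 → w = 0 := by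
  refine ⟨LinearMap.range (n ^ finrank F V), ?_, ?_, ?_⟩
  · intro h0
    exact hn ⟨_, LinearMap.range_eq_bot.1 h0⟩
  · rintro φ hφ _ ⟨v, rfl⟩
    refine ⟨φ v, ?_⟩
    have h1 := congrArg (fun ψ : End F V => ψ v) (hφ.pow_right (finrank F V)).eq
    exact h1.symm
  · rintro _ ⟨v, rfl⟩ hv
    have h1 : v ∈ LinearMap.ker (n ^ (finrank F V + 1)) := by
      rw [LinearMap.mem_ker, pow_succ']
      exact hv
    rw [Module.End.ker_pow_eq_ker_pow_finrank_of_le (Nat.le_succ _)] at h1
    exact h1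

end Pool.MP_59b15d_al.H46U
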