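import Mathlib
import Pool.Agent.H.MP_59b15d_al.h46u.Eig

set_option autoImplicit false

/-!
# Irreducible projective representations

Let `ρ` be a projective representation of a group `Γ`, irreducible over an algebraically closed
field, and `T` a normal subgroup which acts unipotently on `End V`. Then `T` acts by scalars.
-/

namespace Pool.MP_59b15d_al.H46U

open Module
open scoped commutatorElement

/-! ### Normal subgroups acting unipotently -/

section fil

variable {F A Γ : Type*} [Field F] [AddCommGroup A] [Module F A] [Group Γ]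

/-- The filtration of a representation by a subgroup. -/
def Fil (σ : Γ →* End F A) (T : Subgroup Γ) : ℕ → Submodule F A
  | 0 => ⊤
  | i + 1 => Submodule.span F {x | ∃ t ∈ T, ∃ m ∈ Fil σ T i, x = σ t m - m}

/-- The lower central series of `T`. -/
def Lc (T : Subgroup Γ) : ℕ → Subgroup Γ
  | 0 => T
  | k + 1 => ⁅Lc T k, T⁆

theorem lc_normal {T : Subgroup Γ} (hT : T.Normal) : ∀ k, (Lc T k).Normal
  | 0 => hT
  | k + 1 => by
    have := lc_normal hT k
    exact Subgroup.commutator_normal _ _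

theorem lc_le {T : Subgroup Γ} (hT : T.Normal) : ∀ k, Lc T k ≤ T
  | 0 => le_rfl
  | k + 1 => by
    exact Subgroup.commutator_le_right _ _

variable {σ : Γ →* End F A} {T : Subgroup Γ}

theorem sig_mul (x y : Γ) (m : A) : σ (x * y) m = σ x (σ y m) := by
  rw [map_mul]; rfl

theorem fil_stable (hT : T.Normal) (x : Γ) : ∀ i, ∀ m ∈ Fil σ T i, σ x m ∈ Fil σ T i
  | 0, _, _ => Submodule.mem_top
  | i + 1, m, hm => by
    have h1 : Fil σ T (i + 1) ≤ (Fil σ T (i + 1)).comap (σ x) := by
      conv_lhs => rw [Fil]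
      rw [Submodule.span_le]
      rintro _ ⟨t, ht, m, hm, rfl⟩
      change σ x (σ t m - m) ∈ Fil σ T (i + 1)
      have h2 : σ x (σ t m - m) = σ (x * t * x⁻¹) (σ x m) - σ x m := by
        rw [map_sub, ← sig_mul, ← sig_mul, inv_mul_cancel_right]
      rw [h2, Fil]
      exact Submodule.subset_span ⟨_, hT.conj_mem t ht x, _, fil_stable hT x i m hm, rfl⟩
    exact h1 hm

theorem fil_succ_mem {t : Γ} (ht : t ∈ T) {i : ℕ} {m : A} (hm : m ∈ Fil σ T i) :
    σ t m - m ∈ Fil σ T (i + 1) := by
  rw [Fil]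
  exact Submodule.subset_span ⟨t, ht, m, hm, rfl⟩

theorem fil_anti (hT : T.Normal) (i : ℕ) : Fil σ T (i + 1) ≤ Fil σ T i := by
  conv_lhs => rw [Fil]
  rw [Submodule.span_le]
  rintro _ ⟨t, _, m, hm, rfl⟩
  exact Submodule.sub_mem _ (fil_stable hT t i m hm) hm

/-- The filtration ends if the products of the `σ t - 1` vanish. -/
theorem fil_bot {n : ℕ} (hn : ∀ l : List Γ, (∀ t ∈ l, t ∈ T) → n ≤ l.length →
    (l.map fun t => σ t - 1).prod = 0) : Fil σ T n = ⊥ := by
  have key : ∀ i, ∀ l : List Γ, (∀ t ∈ l, t ∈ T) → n ≤ l.length + i → ∀ m ∈ Fil σ T i,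
      (l.map fun t => σ t - 1).prod m = 0 := by
    intro i
    induction i with
    | zero =>
      intro l hl hln m _
      rw [hn l hl hln, LinearMap.zero_apply]
    | succ i ih =>
      intro l hl hln m hm
      have h1 : Fil σ T (i + 1) ≤ LinearMap.ker (l.map fun t => σ t - 1).prod := by
        rw [Fil, Submodule.span_le]
        rintro _ ⟨t, ht, m, hm, rfl⟩
        have h2 := ih (l ++ [t]) (by
          intro s hs
          rcases List.mem_append.1 hs with h3 | h3
          · exact hl s h3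
          · rw [List.mem_singleton.1 h3]; exact ht) (by
          rw [List.length_append, List.length_singleton]; omega) m hm
        rw [List.map_append, List.prod_append, List.map_singleton, List.prod_singleton,
          Module.End.mul_apply] at h2
        exact h2
      exact h1 hm
  rw [Submodule.eq_bot_iff]
  intro m hm
  have h1 := key n [] (fun t ht => by simp at ht) (by simp) m hm
  simpa using h1

/-- The terms of the lower central series act more and more unipotently. -/
theorem lc_fil (hT : T.Normal) : ∀ k, ∀ x ∈ Lc T k, ∀ i, ∀ m ∈ Fil σ T i,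
    σ x m - m ∈ Fil σ T (i + k + 1)
  | 0, x, hx, i, m, hm => fil_succ_mem hx hm
  | k + 1, x, hx, i, m, hm => by
    let P : Subgroup Γ :=
      { carrier := {x | ∀ i, ∀ m ∈ Fil σ T i, σ x m - m ∈ Fil σ T (i + (k + 1) + 1)}
        one_mem' := by
          intro i m _
          rw [map_one, Module.End.one_apply, sub_self]
          exact Submodule.zero_mem _
        mul_mem' := by
          intro x y hx hy i m hm
          have h1 : σ (x * y) m - m = (σ x (σ y m) - σ y m) + (σ y m - m) := by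
            rw [sig_mul]; abel
          rw [h1]
          exact Submodule.add_mem _ (hx i _ (fil_stable hT y i m hm)) (hy i m hm)
        inv_mem' := by
          intro x hx i m hm
          have h1 : σ x⁻¹ m - m = -σ x⁻¹ (σ x m - m) := by
            rw [map_sub, ← sig_mul, inv_mul_cancel, map_one, Module.End.one_apply]
            abel
          rw [h1]
          exact Submodule.neg_mem _ (fil_stable hT _ _ _ (hx i m hm)) }
    have hle : Lc T (k + 1) ≤ P := by
      rw [Lc, Subgroup.commutator_le]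
      intro x hx t ht i m hm
      have hm' : σ (x⁻¹ * t⁻¹) m ∈ Fil σ T i := fil_stable hT _ i m hm
      obtain ⟨m', hm'd⟩ : ∃ m', m' = σ (x⁻¹ * t⁻¹) m := ⟨_, rfl⟩
      rw [← hm'd] at hm'
      have h1 : σ ⁅x, t⁆ m - m =
          (σ x (σ t m' - m') - (σ t m' - m')) - (σ t (σ x m' - m') - (σ x m' - m')) := by
        have h2 : σ ⁅x, t⁆ m = σ x (σ t m') := by
          rw [hm'd, ← sig_mul, ← sig_mul, commutatorElement_def]
          congr 2
          group
        have h3 : m = σ t (σ x m') := by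
          rw [hm'd, ← sig_mul, ← sig_mul]
          have h4 : t * x * (x⁻¹ * t⁻¹) = 1 := by group
          rw [h4, map_one]
          rfl
        rw [h2]
        conv_lhs => rw [h3]
        simp only [map_sub]
        abel
      rw [h1]
      refine Submodule.sub_mem _ ?_ ?_
      · have h2 := lc_fil hT k x hx (i + 1) _ (fil_succ_mem ht hm')
        rwa [show i + 1 + k + 1 = i + (k + 1) + 1 by omega] at h2
      · have h2 := fil_succ_mem ht (lc_fil hT k x hx i _ hm')
        rwa [show i + k + 1 + 1 = i + (k + 1) + 1 by omega] at h2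
    exact hle hx i m hm

/-- A term of the lower central series acts trivially. -/
theorem lc_trivial (hT : T.Normal) {n : ℕ} (hn : ∀ l : List Γ, (∀ t ∈ l, t ∈ T) →
    n ≤ l.length → (l.map fun t => σ t - 1).prod = 0) {x : Γ} (hx : x ∈ Lc T n) : σ x = 1 := by
  ext m
  have h1 := lc_fil (σ := σ) hT n x hx 0 m Submodule.mem_top
  have h2 := fil_anti hT (0 + n) h1
  rw [zero_add, fil_bot hn, Submodule.mem_bot, sub_eq_zero] at h2
  exact h2

end fil

theorem eq_zero_of_pow_eq_zero' {F : Type*} [Field F] {c : F} {n : ℕ} (h : c ^ n = 0) : c = 0 :=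
  eq_zero_of_pow_eq_zero h

/-! ### Projective representations -/

section proj

variable {F V Γ : Type*} [Field F] [AddCommGroup V] [Module F V] [Group Γ]

/-- A projective representation. -/
def IsProj (ρ : Γ → V ≃ₗ[F] V) : Prop := ∀ x y, ∃ c : F, ∀ v, ρ (x * y) v = c • ρ x (ρ y v)

/-- The element acts by a scalar. -/
def IsSc (ρ : Γ → V ≃ₗ[F] V) (x : Γ) : Prop := ∃ c : F, ∀ v, ρ x v = c • v

theorem conj_apply' (e : V ≃ₗ[F] V) (M : End F V) (v : V) : e.conj M v = e (M (e.symm v)) := rfl

theorem conj_congr {e e' : V ≃ₗ[F] V} {c : F} (hc : c ≠ 0) (h : ∀ v, e v = c • e' v)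
    (M : End F V) : e.conj M = e'.conj M := by
  ext v
  rw [conj_apply', conj_apply']
  have h1 : e.symm v = c⁻¹ • e'.symm v := by
    rw [LinearEquiv.symm_apply_eq, h, map_smul, LinearEquiv.apply_symm_apply,
      smul_inv_smul₀ hc]
  rw [h1, map_smul, map_smul, h, inv_smul_smul₀ hc]

theorem ne_zero_of_eq [Nontrivial V] {e e' : V ≃ₗ[F] V} {c : F} (h : ∀ v, e v = c • e' v) :
    c ≠ 0 := by
  rintro rfl
  obtain ⟨v, hv⟩ := exists_ne (0 : V)
  have h1 := h v
  rw [zero_smul] at h1
  exact hv (e.map_eq_zero_iff.1 h1)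

variable [Nontrivial V] {ρ : Γ → V ≃ₗ[F] V}

/-- The action on the endomorphisms. -/
def adj (hρ : IsProj ρ) : Γ →* End F (End F V) where
  toFun x := ((ρ x).conj : End F V ≃ₗ[F] End F V).toLinearMap
  map_one' := by
    obtain ⟨c, hc⟩ := hρ 1 1
    have h1 : ∀ v, ρ 1 (c • v) = v := by
      intro v
      apply (ρ 1).injective
      rw [map_smul (ρ 1), map_smul (ρ 1), ← hc, mul_one]
    have hc0 : c ≠ 0 := by
      rintro rfl
      obtain ⟨v, hv⟩ := exists_ne (0 : V)
      have h2 := h1 v
      rw [zero_smul, map_zero] at h2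
      exact hv h2.symm
    have h2 : ∀ v, ρ 1 v = c⁻¹ • (LinearEquiv.refl F V) v := by
      intro v
      have h3 := h1 (c⁻¹ • v)
      rw [smul_inv_smul₀ hc0] at h3
      exact h3
    ext M v
    change (ρ 1).conj M v = M v
    rw [conj_congr (inv_ne_zero hc0) h2]
    rfl
  map_mul' x y := by
    obtain ⟨c, hc⟩ := hρ x y
    ext M v
    change (ρ (x * y)).conj M v = (ρ x).conj ((ρ y).conj M) v
    rw [conj_congr (e' := (ρ y).trans (ρ x)) (ne_zero_of_eq (e' := (ρ y).trans (ρ x)) hc) hc]
    rfl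

theorem adj_apply (hρ : IsProj ρ) (x : Γ) (M : End F V) (v : V) :
    adj hρ x M v = ρ x (M ((ρ x).symm v)) := rfl

/-- What acts trivially on the endomorphisms acts by a scalar. -/
theorem sc_of_adj (hρ : IsProj ρ) {x : Γ} (h : adj hρ x = 1) : IsSc ρ x := by
  obtain ⟨w, hw⟩ := exists_ne (0 : V)
  obtain ⟨f, hf⟩ := Module.Projective.exists_dual_eq_one F hw
  refine ⟨f (ρ x w), fun v => ?_⟩
  have h1 : adj hρ x (f.smulRight v) (ρ x w) = f.smulRight v (ρ x w) := by
    rw [h]; rfl
  rw [adj_apply, LinearEquiv.symm_apply_apply, LinearMap.smulRight_apply,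
    LinearMap.smulRight_apply, hf, one_smul] at h1
  exact h1

/-- Two proportional unipotent endomorphisms are equal. -/
theorem unip_unique {u : End F V} {c : F} (h1 : IsNilpotent (u - 1))
    (h2 : IsNilpotent (c • u - 1)) : c = 1 := by
  have hex : ∃ v : V, v ≠ 0 ∧ (u - 1) v = 0 := by
    by_contra hcon
    push Not at hcon
    obtain ⟨N, hN⟩ := h1
    obtain ⟨w, hw⟩ := exists_ne (0 : V)
    have h3 : ∀ n : ℕ, ((u - 1 : End F V) ^ n) w ≠ 0 := by
      intro n
      induction n with
      | zero => exact hw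
      | succ n ih =>
        rw [pow_succ', Module.End.mul_apply]
        exact hcon _ ih
    exact h3 N (by rw [hN]; rfl)
  obtain ⟨v, hv, hv0⟩ := hex
  rw [LinearMap.sub_apply, Module.End.one_apply, sub_eq_zero] at hv0
  obtain ⟨N, hN⟩ := h2
  have h3 : ∀ n : ℕ, ((c • u - 1 : End F V) ^ n) v = (c - 1) ^ n • v := by
    intro n
    induction n with
    | zero => rw [pow_zero, pow_zero, one_smul]; rfl
    | succ n ih =>
      rw [pow_succ', Module.End.mul_apply, ih, map_smul, LinearMap.sub_apply,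
        LinearMap.smul_apply, hv0, Module.End.one_apply]
      have h5 : c • v - v = (c - 1) • v := by rw [sub_smul, one_smul]
      rw [h5, smul_smul, pow_succ]
  have h4 := h3 N
  rw [hN, LinearMap.zero_apply] at h4
  rcases smul_eq_zero.1 h4.symm with h5 | h5
  · exact sub_eq_zero.1 (eq_zero_of_pow_eq_zero' h5)
  · exact absurd h5 hv

/-- The unipotent multiple of `ρ x`. -/
structure Un1 (ρ : Γ → V ≃ₗ[F] V) (x : Γ) (u : End F V) : Prop where
  nil : IsNilpotent (u - 1)
  sc : ∃ c : F, c ≠ 0 ∧ ∀ v, u v = c • ρ x v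

theorem Un1.unique {x : Γ} {u u' : End F V} (h : Un1 ρ x u) (h' : Un1 ρ x u') : u = u' := by
  obtain ⟨c, hc0, hc⟩ := h.sc
  obtain ⟨c', hc0', hc'⟩ := h'.sc
  have h1 : u' = (c' * c⁻¹) • u := by
    ext v
    rw [LinearMap.smul_apply, hc, hc', smul_smul, mul_assoc, inv_mul_cancel₀ hc0, mul_one]
  have h2 : c' * c⁻¹ = 1 := unip_unique h.nil (by rw [← h1]; exact h'.nil)
  rw [h1, h2, one_smul]

theorem conj_nil (e : V ≃ₗ[F] V) {n : End F V} (h : IsNilpotent n) : IsNilpotent (e.conj n) := by
  obtain ⟨N, hN⟩ := h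
  have h1 : ∀ k, (e.conj n) ^ k = e.conj (n ^ k) := by
    intro k
    induction k with
    | zero =>
      ext v
      rw [pow_zero, pow_zero, conj_apply']
      simp
    | succ k ih =>
      ext v
      rw [pow_succ', pow_succ', ih, Module.End.mul_apply, conj_apply', conj_apply', conj_apply',
        LinearEquiv.symm_apply_apply, Module.End.mul_apply]
  exact ⟨N, by rw [h1, hN, map_zero]⟩

/-- Conjugation of the unipotent multiples. -/
theorem Un1.conj (hρ : IsProj ρ) {x : Γ} {u : End F V} (h : Un1 ρ x u) (y : Γ) :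
    Un1 ρ (y * x * y⁻¹) ((ρ y).conj u) := by
  constructor
  · have h1 : (ρ y).conj u - 1 = (ρ y).conj (u - 1) := by
      rw [map_sub]
      congr 1
      ext v
      rw [conj_apply', Module.End.one_apply, Module.End.one_apply, LinearEquiv.apply_symm_apply]
    rw [h1]
    exact conj_nil _ h.nil
  · obtain ⟨c, hc0, hc⟩ := h.sc
    obtain ⟨c1, hc1⟩ := hρ (y * x) y⁻¹
    obtain ⟨c2, hc2⟩ := hρ y x
    obtain ⟨c3, hc3⟩ := hρ y y⁻¹
    obtain ⟨c4, hc4⟩ := hρ 1 1
    have k1 : c1 ≠ 0 := ne_zero_of_eq (e := ρ (y * x * y⁻¹)) (e' := (ρ y⁻¹).trans (ρ (y * x))) hc1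
    have k2 : c2 ≠ 0 := ne_zero_of_eq (e := ρ (y * x)) (e' := (ρ x).trans (ρ y)) hc2
    have k3 : c3 ≠ 0 := ne_zero_of_eq (e := ρ (y * y⁻¹)) (e' := (ρ y⁻¹).trans (ρ y)) hc3
    have k4 : c4 ≠ 0 := ne_zero_of_eq (e := ρ (1 * 1)) (e' := (ρ 1).trans (ρ 1)) hc4
    have o1 : ∀ v, ρ 1 v = c4⁻¹ • v := by
      intro v
      have h1 := hc4 v
      rw [mul_one, ← map_smul] at h1
      have h2 := (ρ 1).injective h1
      rw [eq_inv_smul_iff₀ k4]
      exact h2.symm
    have o2 : ∀ v, ρ y⁻¹ v = (c3⁻¹ * c4⁻¹) • (ρ y).symm v := by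
      intro v
      have h1 := hc3 v
      rw [mul_inv_cancel, o1] at h1
      apply (ρ y).injective
      rw [map_smul, LinearEquiv.apply_symm_apply, mul_smul, h1, inv_smul_smul₀ k3]
    have o3 : ∀ v, ρ (y * x * y⁻¹) v = (c1 * c2 * (c3⁻¹ * c4⁻¹)) • ρ y (ρ x ((ρ y).symm v)) := by
      intro v
      rw [hc1, hc2, o2, map_smul, map_smul, smul_smul, smul_smul, mul_assoc]
    have k5 : c1 * c2 * (c3⁻¹ * c4⁻¹) ≠ 0 :=
      mul_ne_zero (mul_ne_zero k1 k2) (mul_ne_zero (inv_ne_zero k3) (inv_ne_zero k4))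
    refine ⟨c * (c1 * c2 * (c3⁻¹ * c4⁻¹))⁻¹, mul_ne_zero hc0 (inv_ne_zero k5), fun v => ?_⟩
    rw [o3, conj_apply', hc, map_smul, smul_smul, mul_assoc, inv_mul_cancel₀ k5, mul_one]

variable [FiniteDimensional F V] [IsAlgClosed F]

/-- An element which acts unipotently on the endomorphisms has a unipotent multiple. -/
theorem exists_un1 (hρ : IsProj ρ) {x : Γ} (h : IsNilpotent (adj hρ x - 1)) :
    ∃ u, Un1 ρ x u := by
  obtain ⟨lam, hlam⟩ := Module.End.exists_eigenvalue ((ρ x : V →ₗ[F] V) : End F V)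
  have hl0 : lam ≠ 0 := by
    rintro rfl
    obtain ⟨v, hv⟩ := hlam.exists_hasEigenvector
    have h1 := hv.apply_eq_smul
    rw [zero_smul] at h1
    exact hv.2 ((ρ x).map_eq_zero_iff.1 h1)
  have hnil : IsNilpotent ((ρ x : V →ₗ[F] V) - algebraMap F (End F V) lam) := by
    by_contra hcon
    obtain ⟨U, hU, hUs, hUi⟩ := exists_stable_inj hcon
    have hst : ∀ w ∈ U, (ρ x : V →ₗ[F] V) w ∈ U :=
      hUs _ ((Commute.refl _).sub_right (Algebra.commutes lam _).symm)
    have : Nontrivial U := Submodule.nontrivial_iff_ne_bot.2 hU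
    obtain ⟨mu, hmu⟩ := Module.End.exists_eigenvalue ((ρ x : V →ₗ[F] V).restrict hst)
    obtain ⟨v, hv⟩ := hmu.exists_hasEigenvector
    have hv1 : ρ x (v : V) = mu • (v : V) := congrArg Subtype.val hv.apply_eq_smul
    have hv0 : (v : V) ≠ 0 := fun h0 => hv.2 (Subtype.ext h0)
    -- a functional
    have hlt : LinearMap.range ((ρ x : V →ₗ[F] V) - algebraMap F (End F V) lam) < ⊤ := by
      rw [lt_top_iff_ne_top]
      intro htop
      have h1 : LinearMap.ker ((ρ x : V →ₗ[F] V) - algebraMap F (End F V) lam) = ⊥ :=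
        LinearMap.ker_eq_bot_iff_range_eq_top.2 htop
      obtain ⟨w, hw⟩ := hlam.exists_hasEigenvector
      have h2 : w ∈ LinearMap.ker ((ρ x : V →ₗ[F] V) - algebraMap F (End F V) lam) := by
        rw [LinearMap.mem_ker, LinearMap.sub_apply, hw.apply_eq_smul]
        simp
      rw [h1, Submodule.mem_bot] at h2
      exact hw.2 h2
    obtain ⟨f, hf0, hf⟩ := Submodule.exists_le_ker_of_lt_top _ hlt
    have hf1 : ∀ w, f (ρ x w) = lam * f w := by
      intro w
      have h1 : f (((ρ x : V →ₗ[F] V) - algebraMap F (End F V) lam) w) = 0 := hf ⟨w, rfl⟩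
      rw [LinearMap.sub_apply, map_sub, sub_eq_zero] at h1
      rw [← LinearEquiv.coe_coe, h1]
      simp
    obtain ⟨M, hM⟩ : ∃ M : End F V, M = f.smulRight (v : V) := ⟨_, rfl⟩
    have hM0 : M ≠ 0 := by
      intro h0
      apply hf0
      ext w
      have h1 : M w = 0 := by rw [h0]; rfl
      rw [hM, LinearMap.smulRight_apply] at h1
      rcases smul_eq_zero.1 h1 with h2 | h2
      · rw [h2]; rfl
      · exact absurd h2 hv0
    have hadj : adj hρ x M = (mu * lam⁻¹) • M := by
      ext w
      obtain ⟨w', rfl⟩ := (ρ x).surjective w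
      rw [adj_apply, LinearEquiv.symm_apply_apply, LinearMap.smul_apply, hM,
        LinearMap.smulRight_apply, LinearMap.smulRight_apply, map_smul, hv1, hf1, smul_smul,
        smul_smul]
      congr 1
      field_simp
    obtain ⟨N, hN⟩ := h
    have h1 : ∀ n, ((adj hρ x - 1) ^ n) M = (mu * lam⁻¹ - 1) ^ n • M := by
      intro n
      induction n with
      | zero => rw [pow_zero, pow_zero, one_smul]; rfl
      | succ n ih =>
        rw [pow_succ', Module.End.mul_apply, ih, map_smul, LinearMap.sub_apply, hadj,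
          Module.End.one_apply]
        have h2 : (mu * lam⁻¹) • M - M = (mu * lam⁻¹ - 1) • M := by rw [sub_smul, one_smul]
        rw [h2, smul_smul, pow_succ]
    have h2 := h1 N
    rw [hN, LinearMap.zero_apply] at h2
    rcases smul_eq_zero.1 h2.symm with h3 | h3
    · have h4 := eq_zero_of_pow_eq_zero' h3
      have h5 : mu = lam := by
        rw [sub_eq_zero] at h4
        field_simp at h4
        exact h4
      have h6 := hUi v v.2
      apply hv0
      apply h6
      rw [LinearMap.sub_apply, LinearEquiv.coe_coe, hv1, h5]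
      simp
    · exact hM0 h3
  refine ⟨lam⁻¹ • (ρ x : V →ₗ[F] V), ?_, lam⁻¹, inv_ne_zero hl0, fun v => rfl⟩
  have h1 : lam⁻¹ • (ρ x : V →ₗ[F] V) - 1 =
      lam⁻¹ • ((ρ x : V →ₗ[F] V) - algebraMap F (End F V) lam) := by
    ext v
    simp only [LinearMap.sub_apply, LinearMap.smul_apply, Module.End.one_apply, smul_sub]
    congr 1
    simp [hl0]
  rw [h1]
  obtain ⟨N, hN⟩ := hnil
  exact ⟨N, by rw [smul_pow, hN, smul_zero]⟩

/-- **Theorem.** Let `ρ` be a projective representation, irreducible over an algebraically closed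
field, and `T` a normal subgroup which acts unipotently on the endomorphisms. Then `T` acts by
scalars. -/
theorem proj_sc (hρ : IsProj ρ)
    (hirr : ∀ U : Submodule F V, (∀ x, ∀ u ∈ U, ρ x u ∈ U) → U = ⊥ ∨ U = ⊤)
    {T : Subgroup Γ} (hT : T.Normal) {n : ℕ} (hn : ∀ l : List Γ, (∀ t ∈ l, t ∈ T) →
      n ≤ l.length → (l.map fun t => adj hρ t - 1).prod = 0) {t : Γ} (ht : t ∈ T) :
    IsSc ρ t := by
  classical
  have hex : ∃ k, ∀ x ∈ Lc T k, IsSc ρ x :=
    ⟨n, fun x hx => sc_of_adj hρ (lc_trivial hT hn hx)⟩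
  by_cases h0 : Nat.find hex = 0
  · have h1 := Nat.find_spec hex
    rw [h0] at h1
    exact h1 t ht
  · exfalso
    obtain ⟨k, hk⟩ := Nat.exists_eq_succ_of_ne_zero h0
    have hsc : ∀ x ∈ Lc T (k + 1), IsSc ρ x := by
      have h1 := Nat.find_spec hex
      rwa [hk] at h1
    have hnot := Nat.find_min hex (m := k) (by omega)
    push Not at hnot
    obtain ⟨z0, hz0, hz0'⟩ := hnot
    have hN := lc_normal hT k
    have hle := lc_le hT k
    have hun : ∀ z ∈ T, ∃ u, Un1 ρ z u := by
      intro z hz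
      refine exists_un1 hρ ⟨n, ?_⟩
      have h1 := hn (List.replicate n z) (fun s hs => by
        rw [List.eq_of_mem_replicate hs]; exact hz) (by rw [List.length_replicate])
      rwa [List.map_replicate, List.prod_replicate] at h1
    choose! u hu using hun
    -- the unipotent multiples of the elements of `Lc T k` commute with those of `T`
    have hcomm : ∀ z ∈ Lc T k, ∀ s ∈ T, (ρ s).conj (u z) = u z := by
      intro z hz s hs
      refine Un1.unique (x := z) ?_ (hu z (hle hz))
      have h1 := (hu z (hle hz)).conj hρ s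
      refine ⟨h1.nil, ?_⟩
      obtain ⟨c, hc0, hc⟩ := h1.sc
      have h2 : s * z * s⁻¹ = ⁅z, s⁆⁻¹ * z := by
        rw [commutatorElement_inv, commutatorElement_def]
        group
      have h3 : ⁅z, s⁆⁻¹ ∈ Lc T (k + 1) :=
        inv_mem (Subgroup.commutator_mem_commutator hz hs)
      obtain ⟨d, hd⟩ := hsc _ h3
      obtain ⟨c1, hc1⟩ := hρ ⁅z, s⁆⁻¹ z
      have h4 : ∀ v, ρ (s * z * s⁻¹) v = (c1 * d) • ρ z v := by
        intro v
        rw [h2, hc1, hd, smul_smul]
      have h5 : c1 * d ≠ 0 := ne_zero_of_eq h4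
      exact ⟨c * (c1 * d), mul_ne_zero hc0 h5, fun v => by rw [hc, h4, smul_smul]⟩
    have hcomm' : ∀ z ∈ Lc T k, ∀ s ∈ T, Commute (u z) (u s) := by
      intro z hz s hs
      obtain ⟨c, hc0, hc⟩ := (hu s hs).sc
      have h1 := hcomm z hz s hs
      have h2 : ∀ v, u z (ρ s v) = ρ s (u z v) := by
        intro v
        conv_lhs => rw [← h1]
        rw [conj_apply', LinearEquiv.symm_apply_apply]
      ext v
      rw [Module.End.mul_apply, Module.End.mul_apply, hc, hc, map_smul, h2]
    obtain ⟨w, -, hw0, hw⟩ := common_ker (fun z : Lc T k => u z.1 - 1)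
      (fun z z' => ((hcomm' z.1 z.2 z'.1 (hle z'.2)).sub_right (Commute.one_right _)).sub_left
        ((Commute.one_left _).sub_right (Commute.one_left _)))
      (fun z => (hu z.1 (hle z.2)).nil) (W := ⊤) top_ne_bot (fun _ _ _ => Submodule.mem_top)
    let U : Submodule F V := ⨅ z : Lc T k, LinearMap.ker (u z.1 - 1)
    have hU : ∀ v, v ∈ U ↔ ∀ z ∈ Lc T k, u z v = v := by
      intro v
      rw [Submodule.mem_iInf]
      constructor
      · intro h1 z hz
        have h2 := h1 ⟨z, hz⟩
        rwa [LinearMap.mem_ker, LinearMap.sub_apply, sub_eq_zero] at h2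
      · intro h1 z
        rw [LinearMap.mem_ker, LinearMap.sub_apply, sub_eq_zero]
        exact h1 z.1 z.2
    rcases hirr U (by
      intro y v hv
      rw [hU] at hv ⊢
      intro z hz
      have hz' : y⁻¹ * z * y⁻¹⁻¹ ∈ Lc T k := hN.conj_mem z hz y⁻¹
      have h1 := (hu _ (hle hz')).conj hρ y
      have h2 : y * (y⁻¹ * z * y⁻¹⁻¹) * y⁻¹ = z := by group
      rw [h2] at h1
      have h3 := h1.unique (hu z (hle hz))
      rw [← h3, conj_apply', LinearEquiv.symm_apply_apply, hv _ hz']) with h1 | h1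
    · have h2 : w ∈ U := (hU w).2 fun z hz => by
        have h3 := hw ⟨z, hz⟩
        rwa [LinearMap.sub_apply, sub_eq_zero] at h3
      rw [h1, Submodule.mem_bot] at h2
      exact hw0 h2
    · obtain ⟨c, hc0, hc⟩ := (hu z0 (hle hz0)).sc
      refine hz0' ⟨c⁻¹, fun v => ?_⟩
      have h2 : v ∈ U := by rw [h1]; exact Submodule.mem_top
      have h3 := (hU v).1 h2 z0 hz0
      rw [hc] at h3
      rw [eq_inv_smul_iff₀ hc0]
      exact h3

end proj

end Pool.MP_59b15d_al.H46U
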