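import Mathlib
import Pool.Agent.H.MP_59b15d_al.h46u.Proj
import Pool.Agent.H.MP_59b15d_al.h52e.Fin
import Pool.Agent.H.MP_59b15d_al.lin.SipKer
import Pool.Agent.H.MP_59b15d_al.h11c.Tree

set_option autoImplicit false

/-!
# Irreducible projective representations of the mapping class group
-/

namespace Pool.MP_59b15d_al.H46U

universe u v w

open Module Pool.MP_59b15d_al.H24T Pool.MP_59b15d_al.H76R Pool.MP_59b15d_al.H73E
open Pool.Agent.H.MP_59b15d_al.SP (cls H1 csp_H1)
open Pool.Agent.H.MP_59b15d_al.Lin (exists_char_lev dv_of_innMod)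
open Pool.MP_59b15d_al.H76 (StdGen InnMod)
open Pool.Agent.H.MP_59b15d_al.H52E (Good Tor mem_Tor good_unip)

section

variable {F V Γ : Type*} [Field F] [AddCommGroup V] [Module F V] [Group Γ]

/-- A homomorphism to the automorphism group of the endomorphism algebra comes from a projective
representation. -/
theorem exists_proj [FiniteDimensional F V] (σ : Γ →* (End F V ≃ₐ[F] End F V)) :
    ∃ ρ : Γ → V ≃ₗ[F] V, IsProj ρ ∧ ∀ x, σ x = (ρ x).conjAlgEquiv F := by
  have h1 : ∀ x, ∃ T : V ≃ₗ[F] V, σ x = T.conjAlgEquiv F := fun x =>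
    (σ x).eq_linearEquivConjAlgEquiv
  choose ρ hρ using h1
  refine ⟨ρ, fun x y => ?_, hρ⟩
  have h2 : (ρ (x * y)).conjAlgEquiv F = ((ρ y).trans (ρ x)).conjAlgEquiv F := by
    rw [← hρ, map_mul, hρ, hρ]
    rfl
  obtain ⟨c, hc⟩ := LinearEquiv.conjAlgEquiv_ext_iff.1 h2
  exact ⟨c, fun v => by rw [hc]; rfl⟩

end

variable {m : ℕ} {G : Type w} [Group G] {a b : Fin m → G} (h : IsSurf a b)

/-- **Theorem.** If all irreducible representations of dimension at most `d²` kill the Torelli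
group, then it acts by scalars in every irreducible projective representation of dimension `d` over
an algebraically closed field. -/
theorem proj_mcg {F : Type u} [Field F] [IsAlgClosed F] {V : Type v} [AddCommGroup V] [Module F V]
    [FiniteDimensional F V] [Nontrivial V] {D : ℕ} (hG : Good.{u, v, w} h F D)
    (hD : finrank F V ^ 2 ≤ D) {ρ : MCG a b → V ≃ₗ[F] V} (hρ : IsProj ρ)
    (hirr : ∀ U : Submodule F V, (∀ x, ∀ u ∈ U, ρ x u ∈ U) → U = ⊥ ∨ U = ⊤)
    {φ : MCG a b} (hφ : ∀ x, cls h ((φ : MulAut G) x) = cls h x) : IsSc ρ φ := by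
  refine proj_sc hρ hirr (T := Tor h) inferInstance (n := finrank F V ^ 2) ?_ hφ
  intro l hl hlen
  have hd : finrank F (End F V) = finrank F V ^ 2 := by rw [finrank_linearMap, sq]
  exact good_unip h hG (End F V) (adj hρ) (hd.le.trans hD) l
    (fun t ht => hl t ht) (by rw [hd]; exact hlen)

/-- **Theorem.** An irreducible homomorphism from the mapping class group to the projective linear
group of a space of small dimension kills the Torelli group. -/
theorem proj_irr {F : Type u} [Field F] [IsAlgClosed F] {V : Type v} [AddCommGroup V] [Module F V]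
    [FiniteDimensional F V] {D : ℕ} (hG : Good.{u, v, w} h F D) (hD : finrank F V ^ 2 ≤ D)
    (σ : MCG a b →* (End F V ≃ₐ[F] End F V))
    (hirr : ∀ U : Submodule F V, (∀ x, ∀ M : End F V, LinearMap.range M ≤ U →
      LinearMap.range (σ x M) ≤ U) → U = ⊥ ∨ U = ⊤)
    {φ : MCG a b} (hφ : ∀ x, cls h ((φ : MulAut G) x) = cls h x) : σ φ = 1 := by
  rcases subsingleton_or_nontrivial V with h0 | h0
  · ext M : 1
    exact Subsingleton.elim _ _
  obtain ⟨ρ, hρ, hσ⟩ := exists_proj σ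
  have h1 : IsSc ρ φ := by
    refine proj_mcg h hG hD hρ (fun U hU => hirr U fun x M hM => ?_) hφ
    rw [hσ, LinearEquiv.conjAlgEquiv_apply]
    rintro _ ⟨v, rfl⟩
    exact hU x _ (hM ⟨_, rfl⟩)
  obtain ⟨c, hc⟩ := h1
  rw [hσ]
  have h2 : (ρ φ).conjAlgEquiv F = (LinearEquiv.refl F V).conjAlgEquiv F :=
    LinearEquiv.conjAlgEquiv_ext_iff.2 ⟨c, by funext v; rw [hc]; rfl⟩
  rw [h2]
  rfl

/-- Every subgroup of finite index which contains the kernel of such a homomorphism is a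
congruence subgroup. -/
theorem proj_irr_cong {F : Type u} [Field F] [IsAlgClosed F] {V : Type v} [AddCommGroup V]
    [Module F V] [FiniteDimensional F V] {D : ℕ} (hm : 3 ≤ m) (hG : Good.{u, v, w} h F D)
    (hD : finrank F V ^ 2 ≤ D) (σ : MCG a b →* (End F V ≃ₐ[F] End F V))
    (hirr : ∀ U : Submodule F V, (∀ x, ∀ M : End F V, LinearMap.range M ≤ U →
      LinearMap.range (σ x M) ≤ U) → U = ⊥ ∨ U = ⊤)
    (H : Subgroup (MulAut G)) (hH : H.relIndex (MCG a b) ≠ 0)
    (hker : ∀ f : MCG a b, σ f = 1 → (f : MulAut G) ∈ H) :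
    ∃ Γ : Subgroup G, Γ.Characteristic ∧ Γ.FiniteIndex ∧ ∀ φ ∈ MCG a b, InnMod Γ φ → φ ∈ H := by
  have h1 : ∀ f ∈ MCG a b, H1 h f = 1 → f ∈ H := by
    intro f hf hf1
    refine hker ⟨f, hf⟩ (proj_irr h hG hD σ hirr ?_)
    intro x
    have h2 := congrArg (fun A => A (cls h x)) hf1
    simpa [Pool.Agent.H.MP_59b15d_al.SP.H1_cls] using h2
  obtain ⟨n, hn, h2⟩ := csp_H1 h hm H hH h1
  obtain ⟨k, rfl⟩ : ∃ k : ℕ, n = k := ⟨n.toNat, (Int.toNat_of_nonneg hn.le).symm⟩
  obtain ⟨Γ, hc, hf, hle⟩ := exists_char_lev h (n := k) (by omega)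
  exact ⟨Γ, hc, hf, fun φ hφ hi => h2 φ hφ (dv_of_innMod h hle hi)⟩

end Pool.MP_59b15d_al.H46U
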