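import Mathlib
import Pool.Agent.H.MP_59b15d_al.h46u.Eig
import Pool.Agent.H.MP_59b15d_al.sp.Base

set_option autoImplicit false

/-!
# Representations of `Sp(2g, Z)` in which products of `T - 1` vanish: the transvections act
unipotently

Let `σ` be a representation of `Sp(2g, Z)` over an algebraically closed field in which the products
of the `σ (T (e j) 1) - 1`, over all `j` but one, vanish. Then `σ (T (e k) 1) - 1` is nilpotent.
-/

namespace Pool.MP_59b15d_al.H46U

open Module Pool.Agent.H.MP_59b15d_al.SP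

variable {g : ℕ}

/-- The vectors of the standard Lagrangian. -/
def Lag (v : Pool.Agent.H.MP_59b15d_al.SP.V g) : Prop := ∀ i, (v i).2 = 0

theorem Lag.om {u v : Pool.Agent.H.MP_59b15d_al.SP.V g} (hu : Lag u) (hv : Lag v) :
    om u v = 0 := by
  rw [Pool.Agent.H.MP_59b15d_al.SP.om]
  refine Finset.sum_eq_zero fun i _ => ?_
  rw [hu i, hv i]
  ring

theorem Lag.add {u v : Pool.Agent.H.MP_59b15d_al.SP.V g} (hu : Lag u) (hv : Lag v) :
    Lag (u + v) := fun i => by
  rw [Pi.add_apply, Prod.snd_add, hu i, hv i, add_zero]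

theorem Lag.sub {u v : Pool.Agent.H.MP_59b15d_al.SP.V g} (hu : Lag u) (hv : Lag v) :
    Lag (u - v) := fun i => by
  rw [Pi.sub_apply, Prod.snd_sub, hu i, hv i, sub_zero]

theorem Lag.smul {u : Pool.Agent.H.MP_59b15d_al.SP.V g} (c : ℤ) (hu : Lag u) :
    Lag (c • u) := fun i => by
  rw [Pi.smul_apply, Prod.smul_snd, hu i, smul_zero]

theorem lag_e (i : Fin g) : Lag (e i) := fun j => by
  by_cases h : j = i
  · rw [h, e_self]
  · rw [e_ne h]; rfl

theorem T_comm {u v : Pool.Agent.H.MP_59b15d_al.SP.V g} (h : om u v = 0) (s t : ℤ) :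
    Commute (T u s) (T v t) := by
  have h' : om v u = 0 := by rw [om_swap, h]; rfl
  refine sp_ext fun x => ?_
  rw [sp_mul, sp_mul, T_apply, T_apply, T_apply, T_apply]
  simp only [om_add_left, om_smul_left, h, h']
  module

/-- The parallelogram relation. -/
theorem T_par {u v : Pool.Agent.H.MP_59b15d_al.SP.V g} (h : om u v = 0) :
    T (u + v) 1 * T (u - v) 1 = T u 1 * T u 1 * (T v 1 * T v 1) := by
  have h' : om v u = 0 := by rw [om_swap, h]; rfl
  refine sp_ext fun x => ?_
  rw [T_mul, T_mul, sp_mul, sp_mul, T_apply, T_apply, T_apply, T_apply]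
  simp only [om_add_left, om_add_right, om_sub_left, om_sub_right, om_smul_left, h, h', om_self]
  module

/-- The lantern relation. -/
theorem T_lan {u v w : Pool.Agent.H.MP_59b15d_al.SP.V g} (h1 : om u v = 0) (h2 : om u w = 0)
    (h3 : om v w = 0) :
    T (u + v + w) 1 * T u 1 * T v 1 * T w 1 = T (u + v) 1 * T (v + w) 1 * T (u + w) 1 := by
  have h1' : om v u = 0 := by rw [om_swap, h1]; rfl
  have h2' : om w u = 0 := by rw [om_swap, h2]; rfl
  have h3' : om w v = 0 := by rw [om_swap, h3]; rfl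
  refine sp_ext fun x => ?_
  simp only [sp_mul, T_apply, om_add_left, om_add_right, om_smul_left, h1, h1', h2, h2', h3, h3',
    om_self]
  module

/-- The unipotent element which adds multiples of `e k` and `e l` to the other `e j`. -/
theorem exists_gamma {k l : Fin g} (hkl : k ≠ l) (c d : Fin g → ℤ) : ∃ γ : Sp g,
    γ (e k) = e k ∧ ∀ j, j ≠ k → j ≠ l → γ (e j) = e j + c j • e k + d j • e l := by
  let c' : Pool.Agent.H.MP_59b15d_al.SP.V g := fun j => if j = k ∨ j = l then 0 else (0, c j)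
  let d' : Pool.Agent.H.MP_59b15d_al.SP.V g := fun j => if j = k ∨ j = l then 0 else (0, d j)
  have ck : c' k = 0 := if_pos (Or.inl rfl)
  have cl : c' l = 0 := if_pos (Or.inr rfl)
  have dk : d' k = 0 := if_pos (Or.inl rfl)
  have dl : d' l = 0 := if_pos (Or.inr rfl)
  have cj : ∀ j, j ≠ k → j ≠ l → c' j = (0, c j) := fun j h1 h2 => if_neg (by tauto)
  have dj : ∀ j, j ≠ k → j ≠ l → d' j = (0, d j) := fun j h1 h2 => if_neg (by tauto)
  have h1 : om (e k) c' = 0 := by rw [om_e', ck]; rfl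
  have h2 : om (e l) d' = 0 := by rw [om_e', dl]; rfl
  have S1 : ∀ j, Pool.Agent.H.MP_59b15d_al.SP.S (e k) c' 1 (e j) = e j + (c' j).2 • e k := by
    intro j
    rw [S_apply h1, om_e_e, om_e']
    simp
  have S2 : ∀ j, Pool.Agent.H.MP_59b15d_al.SP.S (e l) d' 1 (e j) = e j + (d' j).2 • e l := by
    intro j
    rw [S_apply h2, om_e_e, om_e']
    simp
  refine ⟨Pool.Agent.H.MP_59b15d_al.SP.S (e k) c' 1 * Pool.Agent.H.MP_59b15d_al.SP.S (e l) d' 1, ?_, ?_⟩
  · rw [sp_mul, S2, dk]
    simp only [Prod.snd_zero, zero_smul, add_zero]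
    rw [S1, ck]
    simp
  · intro j hjk hjl
    rw [sp_mul, S2, sp_add, sp_smul, S1, S1, cl, cj j hjk hjl, dj j hjk hjl]
    simp

variable {F W : Type*} [Field F] [AddCommGroup W] [Module F W]

theorem sig_comm (σ : Sp g →* End F W) {x y : Sp g} (h : Commute x y) :
    Commute (σ x) (σ y) := by
  rw [Commute, SemiconjBy, ← map_mul, ← map_mul, h.eq]

theorem sig_inj (σ : Sp g →* End F W) (x : Sp g) {w : W} (hw : σ x w = 0) : w = 0 := by
  have h1 : σ x⁻¹ (σ x w) = w := by
    rw [← Module.End.mul_apply, ← map_mul, inv_mul_cancel, map_one]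
    rfl
  rw [← h1, hw, map_zero]

/-- Products of `σ (T (e j) 1) - 1` are conjugated. -/
theorem prod_conj (σ : Sp g →* End F W) (γ : Sp g) (I : List (Fin g)) :
    (I.map fun j => σ (T (γ (e j)) 1) - 1).prod =
      σ γ * (I.map fun j => σ (T (e j) 1) - 1).prod * σ γ⁻¹ := by
  have hg : σ γ⁻¹ * σ γ = 1 := by rw [← map_mul, inv_mul_cancel, map_one]
  have hg' : σ γ * σ γ⁻¹ = 1 := by rw [← map_mul, mul_inv_cancel, map_one]
  induction I with
  | nil => rw [List.map_nil, List.map_nil, List.prod_nil, mul_one, hg']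
  | cons i I ih =>
    rw [List.map_cons, List.map_cons, List.prod_cons, List.prod_cons, ih, ← T_conj, map_mul,
      map_mul]
    have h1 : σ γ * σ (T (e i) 1) * σ γ⁻¹ - 1 = σ γ * (σ (T (e i) 1) - 1) * σ γ⁻¹ := by
      rw [mul_sub, sub_mul, mul_one, hg']
    rw [h1]
    calc σ γ * (σ (T (e i) 1) - 1) * σ γ⁻¹ *
          (σ γ * (I.map fun j => σ (T (e j) 1) - 1).prod * σ γ⁻¹) =
        σ γ * (σ (T (e i) 1) - 1) * (σ γ⁻¹ * σ γ) *
          (I.map fun j => σ (T (e j) 1) - 1).prod * σ γ⁻¹ := by noncomm_ring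
      _ = _ := by rw [hg]; noncomm_ring

/-- The value of a product on a common eigenvector. -/
theorem prod_apply (σ : Sp g →* End F W) {w : W} {v : Fin g → Pool.Agent.H.MP_59b15d_al.SP.V g}
    {q : Fin g → F} (I : List (Fin g)) (hq : ∀ j ∈ I, σ (T (v j) 1) w = q j • w) :
    (I.map fun j => σ (T (v j) 1) - 1).prod w = (I.map fun j => q j - 1).prod • w := by
  induction I with
  | nil => simp
  | cons i I ih =>
    rw [List.map_cons, List.map_cons, List.prod_cons, List.prod_cons, Module.End.mul_apply,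
      ih fun j hj => hq j (List.mem_cons_of_mem _ hj), map_smul, LinearMap.sub_apply,
      hq i List.mem_cons_self, Module.End.one_apply, mul_smul]
    have h1 : q i • w - w = (q i - 1) • w := by rw [sub_smul, one_smul]
    rw [h1, smul_smul, mul_comm, mul_smul]

variable [FiniteDimensional F W]

/-- **Theorem.** If the products of the `σ (T (e j) 1) - 1` over all `j` but one vanish, then the
transvections act unipotently. -/
theorem nilp [IsAlgClosed F] (hg : 3 ≤ g) (σ : Sp g →* End F W)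
    (hI : ∀ l : Fin g, ∃ I : List (Fin g), l ∉ I ∧
      (I.map fun j => σ (T (e j) 1) - 1).prod = 0) (k : Fin g) :
    IsNilpotent (σ (T (e k) 1) - 1) := by
  by_contra hnil
  obtain ⟨U, hU, hUs, hUi⟩ := exists_stable_inj hnil
  have hcomm : ∀ u v : {v : Pool.Agent.H.MP_59b15d_al.SP.V g // Lag v},
      Commute (σ (T u.1 1)) (σ (T v.1 1)) :=
    fun u v => sig_comm σ (T_comm (u.2.om v.2) 1 1)
  obtain ⟨w, hwU, hw0, hw⟩ := common_eigen
    (fun v : {v : Pool.Agent.H.MP_59b15d_al.SP.V g // Lag v} => σ (T v.1 1)) hcomm hU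
    (fun v w hw => hUs _ ((hcomm v ⟨e k, lag_e k⟩).sub_right (Commute.one_right _)) w hw)
  choose! q0 hq0 using hw
  obtain ⟨q, hqd⟩ : ∃ q : Pool.Agent.H.MP_59b15d_al.SP.V g → F,
      ∀ v, Lag v → σ (T v 1) w = q v • w := by
    classical
    refine ⟨fun v => if h : Lag v then q0 ⟨v, h⟩ else 1, fun v hv => ?_⟩
    have h1 : (if h : Lag v then q0 ⟨v, h⟩ else 1) = q0 ⟨v, hv⟩ := dif_pos hv
    change σ (T v 1) w = (if h : Lag v then q0 ⟨v, h⟩ else 1) • w
    rw [h1]
    exact hq0 ⟨v, hv⟩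
  have cancel : ∀ {c d : F}, c • w = d • w → c = d := fun {c d} h => smul_left_injective F hw0 h
  have qne : ∀ v, Lag v → q v ≠ 0 := by
    intro v hv h0
    apply hw0
    apply sig_inj σ (T v 1)
    rw [hqd v hv, h0, zero_smul]
  have hmul : ∀ (x y : Sp g) (c d : F), σ x w = c • w → σ y w = d • w →
      σ (x * y) w = (c * d) • w := by
    intro x y c d h1 h2
    rw [map_mul, Module.End.mul_apply, h2, map_smul, h1, smul_smul, mul_comm]
  have hk : q (e k) ≠ 1 := by
    intro h1
    apply hw0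
    apply hUi w hwU
    rw [LinearMap.sub_apply, hqd _ (lag_e k), h1, one_smul, Module.End.one_apply, sub_self]
  -- the two relations
  have par : ∀ u v, Lag u → Lag v → q (u + v) * q (u - v) = q u * q u * (q v * q v) := by
    intro u v hu hv
    apply cancel
    have h1 := hmul _ _ _ _ (hqd _ (hu.add hv)) (hqd _ (hu.sub hv))
    rw [T_par (hu.om hv)] at h1
    rw [← h1]
    exact hmul _ _ _ _ (hmul _ _ _ _ (hqd _ hu) (hqd _ hu)) (hmul _ _ _ _ (hqd _ hv) (hqd _ hv))
  have lan : ∀ u v x, Lag u → Lag v → Lag x →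
      q (u + v + x) * q u * q v * q x = q (u + v) * q (v + x) * q (u + x) := by
    intro u v x hu hv hx
    apply cancel
    have h1 := hmul _ _ _ _ (hmul _ _ _ _ (hmul _ _ _ _ (hqd _ ((hu.add hv).add hx)) (hqd _ hu))
      (hqd _ hv)) (hqd _ hx)
    rw [T_lan (hu.om hv) (hu.om hx) (hv.om hx)] at h1
    rw [← h1]
    exact hmul _ _ _ _ (hmul _ _ _ _ (hqd _ (hu.add hv)) (hqd _ (hv.add hx)))
      (hqd _ (hu.add hx))
  -- the bad indices
  let bad : Fin g → Prop := fun j => q (e j) = 1 ∧ q (e j + e k) = 1 ∧ q (e j - e k) = 1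
  have hbad : ∀ j, bad j → q (e k) = -1 := by
    intro j hj
    have h1 := par (e j) (e k) (lag_e j) (lag_e k)
    rw [hj.1, hj.2.1, hj.2.2, one_mul, one_mul] at h1
    have h2 : (q (e k) - 1) * (q (e k) + 1) = 0 := by
      have : (q (e k) - 1) * (q (e k) + 1) = q (e k) * q (e k) - 1 := by ring
      rw [this, ← h1, sub_self]
    rcases mul_eq_zero.1 h2 with h3 | h3
    · exact absurd (sub_eq_zero.1 h3) hk
    · exact eq_neg_of_add_eq_zero_left h3
  obtain ⟨l, hlk, hl⟩ : ∃ l, l ≠ k ∧ (bad l ∨ ∀ j, j ≠ k → ¬ bad j) := by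
    by_cases h1 : ∃ l, l ≠ k ∧ bad l
    · obtain ⟨l, h2, h3⟩ := h1
      exact ⟨l, h2, Or.inl h3⟩
    · push Not at h1
      obtain ⟨l, hl⟩ : ∃ l : Fin g, l ≠ k := by
        by_cases h2 : (k : ℕ) = 0
        · exact ⟨⟨1, by omega⟩, fun h => by rw [← h] at h2; simp at h2⟩
        · exact ⟨⟨0, by omega⟩, fun h => h2 (by rw [← h])⟩
      exact ⟨l, hl, Or.inr h1⟩
  have hv : ∀ j, j ≠ k → j ≠ l → ∃ c d : ℤ, q (e j + c • e k + d • e l) ≠ 1 := by
    intro j hjk hjl
    by_cases hb : bad j
    · have hbl : bad l := by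
        rcases hl with h1 | h1
        · exact h1
        · exact absurd hb (h1 j hjk)
      have h1 := hbad j hb
      by_contra hcon
      push Not at hcon
      have h2 := hcon 1 1
      have h3 := hcon 0 1
      rw [one_smul, one_smul] at h2
      rw [zero_smul, add_zero, one_smul] at h3
      have h4 := lan (e k) (e j) (e l) (lag_e k) (lag_e j) (lag_e l)
      rw [show e k + e j + e l = e j + e k + e l by abel, h2, h3, h1, hb.1, hbl.1,
        show e k + e j = e j + e k by abel, hb.2.1, show e k + e l = e l + e k by abel,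
        hbl.2.1] at h4
      apply hk
      rw [h1]
      simpa using h4
    · by_contra hcon
      push Not at hcon
      apply hb
      refine ⟨?_, ?_, ?_⟩
      · have := hcon 0 0
        simpa using this
      · have := hcon 1 0
        simpa using this
      · have := hcon (-1) 0
        simpa [sub_eq_add_neg] using this
  choose! c d hcd using hv
  obtain ⟨γ, hγk, hγ⟩ := exists_gamma hlk.symm c d
  obtain ⟨I, hlI, hI0⟩ := hI l
  have h1 := prod_conj σ γ I
  rw [hI0, mul_zero, zero_mul] at h1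
  have hlag : ∀ j, j ≠ l → Lag (γ (e j)) := by
    intro j hj
    by_cases hjk : j = k
    · rw [hjk, hγk]; exact lag_e k
    · rw [hγ j hjk hj]
      exact ((lag_e j).add ((lag_e k).smul _)).add ((lag_e l).smul _)
  have h2 := prod_apply σ (v := fun j => γ (e j)) (q := fun j => q (γ (e j))) (w := w) I
    (fun j hj => hqd _ (hlag j fun h => hlI (h ▸ hj)))
  rw [h1, LinearMap.zero_apply] at h2
  have h3 : (I.map fun j => q (γ (e j)) - 1).prod = 0 := by
    rcases smul_eq_zero.1 h2.symm with h3 | h3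
    · exact h3
    · exact absurd h3 hw0
  rw [List.prod_eq_zero_iff, List.mem_map] at h3
  obtain ⟨j, hj, hj0⟩ := h3
  have hjl : j ≠ l := fun h => hlI (h ▸ hj)
  have h4 : q (γ (e j)) = 1 := sub_eq_zero.1 hj0
  by_cases hjk : j = k
  · rw [hjk, hγk] at h4
    exact hk h4
  · rw [hγ j hjk hjl] at h4
    exact hcd j hjk hjl h4

end Pool.MP_59b15d_al.H46U
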